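import Pool.Agent.H828R3.Width
import Pool.Agent.H828R3.WAsymp

set_option autoImplicit false

namespace Pool.Agent.Results.MP_0cf6e1_co.LowerBound

open Filter Pool.Agent.H828R3

open scoped Classical in
/-- `L` (a family of `d` strict linear orders on `X`) together with `τ` is a Boolean realizer of
size `d` of the poset `X`. -/
def IsBooleanRealizer (X : Type) [PartialOrder X] (d : ℕ) (L : Fin d → X → X → Prop)
    (τ : (Fin d → Bool) → Bool) : Prop :=
  (∀ i, IsStrictTotalOrder X (L i)) ∧
    ∀ x y : X, x ≠ y → (x < y ↔ τ (fun i => decide (L i x y)) = true)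

/-- The Boolean dimension: the least `d` such that there is a Boolean realizer of size `d`. -/
noncomputable def bdim (X : Type) [PartialOrder X] : ℕ :=
  sInf {d : ℕ | ∃ (L : Fin d → X → X → Prop) (τ : (Fin d → Bool) → Bool),
    IsBooleanRealizer X d L τ}

/-- `w` is the width of `X`: the largest size of a set of pairwise incomparable elements. -/
def HasWidth (X : Type) [PartialOrder X] (w : ℕ) : Prop :=
  (∃ A : Finset X, A.card = w ∧ ∀ x ∈ A, ∀ y ∈ A, ¬ x < y) ∧
    ∀ A : Finset X, (∀ x ∈ A, ∀ y ∈ A, ¬ x < y) → A.card ≤ w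

theorem exists_iff {X : Type} [PartialOrder X] (d : ℕ) :
    (∃ (L : Fin d → X → X → Prop) (τ : (Fin d → Bool) → Bool), IsBooleanRealizer X d L τ) ↔
      HasBR (fun x y : X => x < y) d := by
  classical
  constructor
  · rintro ⟨L, τ, h1, h2⟩
    refine ⟨L, fun q => τ (fun i => decide (q i)) = true, h1, ?_⟩
    intro x y hxy
    refine (h2 x y hxy).trans ?_
    apply Eq.to_iff
    congr
  · rintro ⟨L, τ, h1, h2⟩
    refine ⟨L, fun q => decide (τ (fun i => q i = true)), h1, ?_⟩
    intro x y hxy
    refine (h2 x y hxy).trans ?_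
    simp only [decide_eq_true_eq]

theorem bdim_spec (X : Type) [Fintype X] [PartialOrder X] :
    HasBR (fun x y : X => x < y) (bdim X) := by
  obtain ⟨d, _, hd⟩ := exists_HasBR X
  have hne : {d : ℕ | ∃ (L : Fin d → X → X → Prop) (τ : (Fin d → Bool) → Bool),
      IsBooleanRealizer X d L τ}.Nonempty := ⟨d, (exists_iff d).2 hd⟩
  exact (exists_iff _).1 (Nat.sInf_mem hne)

/-- For every `ε > 0` and every sufficiently large `w` there is a finite poset of width exactly
`w` whose Boolean dimension is at least `(2 - ε) w / log₂ w`. -/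
theorem result : ∀ ε : ℝ, 0 < ε → ∀ᶠ w : ℕ in atTop,
    ∃ (X : Type) (_ : Fintype X) (_ : PartialOrder X),
      HasWidth X w ∧ (2 - ε) * (w / Real.logb 2 w) ≤ bdim X := by
  intro ε hε
  obtain ⟨K, hK1, hK⟩ := width_numeric (ε := min ε 1) (lt_min hε one_pos) (min_le_right _ _)
  filter_upwards [hK, eventually_ge_atTop 2] with w hw hw2
  obtain ⟨X, iF, iP, hX, hd⟩ := main_lower w K K hK1
  refine ⟨X, iF, iP, hX, ?_⟩
  have h1 := hw (bdim X) (hd _ (bdim_spec X))
  refine le_trans ?_ h1
  apply mul_le_mul_of_nonneg_right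
  · have := min_le_left ε 1
    linarith
  · apply div_nonneg (by positivity)
    apply Real.logb_nonneg (by norm_num)
    have : (2 : ℝ) ≤ w := by exact_mod_cast hw2
    linarith

end Pool.Agent.Results.MP_0cf6e1_co.LowerBound
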